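import Pool.Agent.Y605.ST.All

/-!
# Minimum stabbing number triangulations are NP-hard

The decision problem MIN-STAB-TRI: given a finite set `P` of points of the plane with rational
coordinates, not all on a line, and an integer `k`, is there a triangulation of `P` such that every
line meets at most `k` of its (closed) edges?  We prove that it is NP-hard, by a reduction from
3SAT.

*Point sets.*  The lattice points (spacing `K = 2σ`) of an L-shaped region, a square
`[0, a] x [0, a]` with two long arms `[a, a + r] x [0, a]` and `[0, a] x [a, a + r]`, without
some isolated lattice points of the square (the missing points), together with rulers: the middle
lines of some row gaps carry `r (σ - 1)` further points in the right arm, and the middle lines of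
some column gaps carry `r (σ - 1)` further points in the upper arm.  Put
`k = 3 r (σ - 1) + 2 (a + r)`.

*Lower bound.*  A triangulation of `n` points, `h` of them on the boundary, has `3 n - 3 - h` edges.
Applied to the point set and to families of edges above and below the line, this shows that the
middle line of a row gap with a ruler meets at least `k + 1` edges, unless one of the missing points
`p` of the two rows of the gap is the midpoint of a long horizontal edge, which joins the two
lattice neighbours of `p` in its row.  The same holds for the column gaps with long vertical edges.
The long horizontal and the long vertical edge at `p` cross.  So a triangulation with stabbing
number at most `k` yields a choice for the missing points that satisfies one condition for every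
ruler.

*Upper bound.*  Conversely a choice yields a family of prescribed edges (rows, columns, kites around
the missing points, fans of the rulers), which extends to a triangulation; the lines of the rulers
meet at most `k` edges, and all other lines meet few edges of the rulers, because the arms are long
and `σ` is large.

*3SAT.*  The choices at the missing points simulate the truth values of literals, which are
transported by chains of missing points.
-/

set_option autoImplicit false

namespace Pool.Agent.Results.MP_2e9a04_lc.StabTriNPHard

open Pool.Agent.NPC Pool.Agent.W982.TA.Q Pool.Agent.Y605.ST

/-- MIN-STAB-TRI: the input is a list without repetitions of points with rational coordinates, not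
all on a line, and an integer `k`; the question is whether the set of these points has a
triangulation such that every line `α x + β y = γ` meets at most `k` of its edges. -/
def minStabTri (I : List (ℚ × ℚ) × ℤ) : Prop :=
  I.1.Nodup ∧ ¬ Collinear ℝ {x | ∃ p ∈ I.1, x = pt p} ∧
    ∃ T, IsTriangulation I.1.toFinset T ∧
      ∀ α β γ : ℝ, (α ≠ 0 ∨ β ≠ 0) → (met T α β γ : ℤ) ≤ I.2

/-- **MIN-STAB-TRI is NP-hard** under polynomial-time many-one reductions. -/
theorem result : NPHardP minStabTri := Pool.Agent.Y605.ST.all

end Pool.Agent.Results.MP_2e9a04_lc.StabTriNPHard
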